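import Mathlib
import Pool.Agent.KS6_98.R4.Core

set_option autoImplicit false
open H868.RegFour

namespace Pool.Agent.Results.MP_aaae20_al.LocallySoluble

/-- Let `G` be a periodic group with an endomorphism `φ` such that `φ⁴ = 1` and `φ` fixes only
the identity. Then every finitely generated subgroup of `G` is finite, soluble and of odd order. -/
theorem result {G : Type*} [Group G] (φ : G →* G) (tors : ∀ g : G, IsOfFinOrder g)
    (four : ∀ g : G, φ (φ (φ (φ g))) = g) (reg : ∀ g : G, φ g = g → g = 1)
    (H : Subgroup G) (hH : H.FG) :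
    Finite H ∧ Group.IsSolvable H ∧ Odd (Nat.card H) := by
  obtain ⟨s, rfl⟩ := hH
  have hC := cls_of_regular φ tors four reg
  have h := KS6_98.R4.locallySoluble hC
  have hfin := h.1 s (fun x _ => Subgroup.mem_top x)
  refine ⟨hfin, h.2 s (fun x _ => Subgroup.mem_top x), ?_⟩
  by_contra hodd
  rw [Nat.not_odd_iff_even, even_iff_two_dvd] at hodd
  have : Fact (Nat.Prime 2) := ⟨Nat.prime_two⟩
  obtain ⟨x, hx⟩ := exists_prime_orderOf_dvd_card' (G := Subgroup.closure (s : Set G)) 2 hodd
  have h2 : (x : G) * (x : G) = 1 := by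
    have := pow_orderOf_eq_one x
    rw [hx, pow_two] at this
    have h3 := congrArg Subtype.val this
    simpa using h3
  have h1 : (x : G) = 1 := hC.sq_one h2
  have h4 : x = 1 := Subtype.ext h1
  rw [h4, orderOf_one] at hx
  omega

end Pool.Agent.Results.MP_aaae20_al.LocallySoluble
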